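import Pool.Agent.Helper8.TB.St

/-!
Compactness: the lower bound for the inner products with a fixed vector on a closed set of unit vectors.
-/

set_option autoImplicit false

namespace Pool.Agent.Helper80.TB

open Pool.Helper8.TB MeasureTheory

theorem hCpt : StCpt := by
  intro n F e hF h1 h0
  have hcomp : IsCompact F := by
    refine Metric.isCompact_of_isClosed_isBounded hF ?_
    refine (Metric.isBounded_closedBall (x := (0 : W n)) (r := 1)).subset ?_
    intro u hu
    rw [mem_closedBall_zero_iff, h1 u hu]
  rcases F.eq_empty_or_nonempty with hemp | hne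
  · refine ⟨1 / 2, by norm_num, by norm_num, ?_⟩
    intro u hu
    rw [hemp] at hu
    exact absurd hu (Set.notMem_empty u)
  obtain ⟨u₀, hu₀, hmin⟩ := hcomp.exists_isMinOn hne
    (f := fun u : W n => |(inner ℝ u e : ℝ)|)
    ((continuous_id.inner continuous_const).abs.continuousOn)
  have hpos : 0 < |(inner ℝ u₀ e : ℝ)| := abs_pos.mpr (h0 u₀ hu₀)
  refine ⟨min |(inner ℝ u₀ e : ℝ)| (1 / 2), lt_min hpos (by norm_num),
    lt_of_le_of_lt (min_le_right _ _) (by norm_num), ?_⟩
  intro u hu
  exact (min_le_left _ _).trans (hmin hu)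

end Pool.Agent.Helper80.TB
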